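import Pool.Agent.Helper61.VP.Local

/-!
# Block L: the local maximum, in the form used by the project VZ
-/

set_option autoImplicit false

namespace Pool.Agent.Helper61.VP

open Finset

theorem local_max (n : ℕ) (e : Fin n → ℕ) (he : StrictMono e) : ∃ c : ℝ, 0 < c ∧ ∀ κ m : ℕ → ℂ,
    (∀ i, m i ^ 2 = κ i) → (∀ i, κ (i + 1) * (1 + κ i) = 2 * m i) → (∀ i, 1 + κ i ≠ 0) →
    ∃ j : Fin (n + 1), c * ∏ i, max 1 (‖κ (e i)‖ ^ 2) ≤
      ∏ i ∈ Finset.univ.filter (fun i : Fin n => (i : ℕ) < j), ‖κ (e i)‖ ^ 2 := by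
  classical
  set M : ℕ := ∑ i, e i with hM
  have hle : ∀ i, e i ≤ M := fun i => single_le_sum (f := e) (fun _ _ => Nat.zero_le _) (mem_univ i)
  set f : ℕ → ℕ := fun i => if h : i < n then e ⟨i, h⟩ else M + 1 + i with hf
  have hfm : StrictMono f := by
    intro a b hab
    simp only [hf]
    by_cases hb : b < n
    · rw [dif_pos (hab.trans hb), dif_pos hb]
      exact he hab
    · rw [dif_neg hb]
      by_cases ha : a < n
      · rw [dif_pos ha]
        have := hle ⟨a, ha⟩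
        omega
      · rw [dif_neg ha]
        omega
  have hfe : ∀ i : Fin n, f i = e i := by
    intro i
    simp only [hf]
    rw [dif_pos i.2]
  obtain ⟨c, hc, h⟩ := prod_main n f hfm
  refine ⟨c, hc, fun κ m hm1 hm2 _ => ?_⟩
  obtain ⟨l, hl, hl2⟩ := h κ (fun i => by
    rw [← mul_pow, hm2 i, mul_pow, hm1 i]
    norm_num)
  refine ⟨⟨l, Nat.lt_succ_of_le hl⟩, ?_⟩
  have e1 : ∏ j ∈ range n, max 1 (‖κ (f j)‖ ^ 2) = ∏ i : Fin n, max 1 (‖κ (e i)‖ ^ 2) := by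
    rw [← Fin.prod_univ_eq_prod_range (fun j => max 1 (‖κ (f j)‖ ^ 2)) n]
    exact prod_congr rfl fun i _ => by rw [hfe]
  have e2 : ∏ j ∈ range l, ‖κ (f j)‖ ^ 2 =
      ∏ i ∈ Finset.univ.filter (fun i : Fin n => (i : ℕ) < l), ‖κ (e i)‖ ^ 2 := by
    rw [prod_filter]
    have e3 : ∏ i : Fin n, (if (i : ℕ) < l then ‖κ (e i)‖ ^ 2 else 1) =
        ∏ j ∈ range n, (if j < l then ‖κ (f j)‖ ^ 2 else 1) := by
      rw [← Fin.prod_univ_eq_prod_range (fun j => if j < l then ‖κ (f j)‖ ^ 2 else 1) n]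
      exact prod_congr rfl fun i _ => by rw [hfe]
    rw [e3, ← prod_filter]
    congr 1
    ext j
    simp only [mem_range, mem_filter]
    omega
  rw [← e1]
  show c * _ ≤ ∏ i ∈ Finset.univ.filter (fun i : Fin n => (i : ℕ) < l), ‖κ (e i)‖ ^ 2
  rw [← e2]
  exact hl2

end Pool.Agent.Helper61.VP
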