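import Mathlib

/-!
# Local analysis of the Landen tower `κ_{i+1} = 2 √κ_i / (1 + κ_i)`

At most one of the `κ_i` is large; then all the earlier `κ_j²` are near `1` and all the later ones are small.
-/

set_option autoImplicit false

namespace Pool.Agent.Helper61.VP

open Finset

/-- The recursion, up to the sign of `κ_{i+1}`. -/
def IsTow (κ : ℕ → ℂ) : Prop := ∀ i, κ (i + 1) ^ 2 * (1 + κ i) ^ 2 = 4 * κ i

theorem tow_shift {κ : ℕ → ℂ} (h : IsTow κ) (m : ℕ) : IsTow (fun i => κ (i + m)) := by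
  intro i
  have := h (i + m)
  have e : i + 1 + m = i + m + 1 := by omega
  show κ (i + 1 + m) ^ 2 * (1 + κ (i + m)) ^ 2 = 4 * κ (i + m)
  rw [e]
  exact this

/-- `(1 - κ_{i+1}²) (1 + κ_i)² = (1 - κ_i)²` -/
theorem tow_one {κ : ℕ → ℂ} (h : IsTow κ) (i : ℕ) :
    (1 - κ (i + 1) ^ 2) * (1 + κ i) ^ 2 = (1 - κ i) ^ 2 := by
  linear_combination -(h i)

/-- If `|κ_i| ≥ 2` then `|κ_{i+1}|² ≤ 16 / |κ_i|`. -/
theorem tow_big {κ : ℕ → ℂ} (h : IsTow κ) {i : ℕ} (hi : 2 ≤ ‖κ i‖) : ‖κ (i + 1)‖ ^ 2 * ‖κ i‖ ≤ 16 := by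
  have h1 : ‖κ i‖ - 1 ≤ ‖1 + κ i‖ := by
    have := norm_sub_norm_le (κ i) (-1)
    rw [norm_neg, norm_one] at this
    have e : κ i - -1 = 1 + κ i := by ring
    rw [e] at this
    exact this
  have h2 : ‖κ (i + 1)‖ ^ 2 * ‖1 + κ i‖ ^ 2 = 4 * ‖κ i‖ := by
    have := congrArg norm (h i)
    rw [norm_mul, norm_pow, norm_pow, norm_mul] at this
    simpa using this
  have h3 : ‖κ i‖ / 2 ≤ ‖1 + κ i‖ := by linarith
  have h4 : (‖κ i‖ / 2) ^ 2 ≤ ‖1 + κ i‖ ^ 2 := by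
    apply pow_le_pow_left₀ (by positivity) h3
  have h5 : ‖κ (i + 1)‖ ^ 2 * (‖κ i‖ / 2) ^ 2 ≤ 4 * ‖κ i‖ := by
    rw [← h2]
    exact mul_le_mul_of_nonneg_left h4 (by positivity)
  have h6 : 0 < ‖κ i‖ := by linarith
  have h7 : (‖κ (i + 1)‖ ^ 2 * ‖κ i‖) * ‖κ i‖ ≤ 16 * ‖κ i‖ := by nlinarith
  exact le_of_mul_le_mul_right h7 h6

/-- If `|κ_i| ≤ 1/2` then `|κ_{i+1}|² ≤ 16 |κ_i|`. -/
theorem tow_small {κ : ℕ → ℂ} (h : IsTow κ) {i : ℕ} (hi : ‖κ i‖ ≤ 1 / 2) : ‖κ (i + 1)‖ ^ 2 ≤ 16 * ‖κ i‖ := by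
  have h1 : 1 / 2 ≤ ‖1 + κ i‖ := by
    have := norm_sub_norm_le (1 : ℂ) (-κ i)
    rw [norm_neg, norm_one] at this
    have e : (1 : ℂ) - -κ i = 1 + κ i := by ring
    rw [e] at this
    linarith
  have h2 : ‖κ (i + 1)‖ ^ 2 * ‖1 + κ i‖ ^ 2 = 4 * ‖κ i‖ := by
    have := congrArg norm (h i)
    rw [norm_mul, norm_pow, norm_pow, norm_mul] at this
    simpa using this
  have h4 : (1 / 2 : ℝ) ^ 2 ≤ ‖1 + κ i‖ ^ 2 := by
    apply pow_le_pow_left₀ (by positivity) h1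
  have h5 : ‖κ (i + 1)‖ ^ 2 * (1 / 2) ^ 2 ≤ 4 * ‖κ i‖ := by
    rw [← h2]
    exact mul_le_mul_of_nonneg_left h4 (by positivity)
  linarith

/-- `κ = (1 - s) / (1 + s)` with `|s| ≤ 1/2`: `|κ² - 1| ≤ 16 |s|`. -/
theorem mob_le {κ s : ℂ} (hs : ‖s‖ ≤ 1 / 2) (h : κ * (1 + s) = 1 - s ∨ κ * (1 + s) = s - 1) :
    ‖κ ^ 2 - 1‖ ≤ 16 * ‖s‖ := by
  have h1 : 1 / 2 ≤ ‖1 + s‖ := by
    have := norm_sub_norm_le (1 : ℂ) (-s)
    rw [norm_neg, norm_one] at this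
    have e : (1 : ℂ) - -s = 1 + s := by ring
    rw [e] at this
    linarith
  have h2 : (κ ^ 2 - 1) * (1 + s) ^ 2 = -4 * s := by
    rcases h with h | h
    · linear_combination (κ * (1 + s) + (1 - s)) * h
    · linear_combination (κ * (1 + s) + (s - 1)) * h
  have h3 : ‖κ ^ 2 - 1‖ * ‖1 + s‖ ^ 2 = 4 * ‖s‖ := by
    have := congrArg norm h2
    rw [norm_mul, norm_pow, norm_mul] at this
    simpa using this
  have h4 : (1 / 2 : ℝ) ^ 2 ≤ ‖1 + s‖ ^ 2 := by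
    apply pow_le_pow_left₀ (by positivity) h1
  have h5 : ‖κ ^ 2 - 1‖ * (1 / 2) ^ 2 ≤ 4 * ‖s‖ := by
    rw [← h3]
    exact mul_le_mul_of_nonneg_left h4 (by positivity)
  linarith

/-- If `κ_{i+1}²` is near `1` then so is `κ_i²`. -/
theorem tow_near {κ : ℕ → ℂ} (h : IsTow κ) {i : ℕ} {δ : ℝ} (hδ0 : 0 ≤ δ) (hδ : δ ≤ 1 / 2)
    (hi : ‖κ (i + 1) ^ 2 - 1‖ ≤ δ ^ 2) : ‖κ i ^ 2 - 1‖ ≤ 16 * δ := by
  have h1 := tow_one h i
  have h0 : 1 + κ i ≠ 0 := by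
    intro h0
    have h2 := h i
    rw [h0] at h2
    have h3 : κ i = 0 := by
      have : (4 : ℂ) * κ i = 0 := by rw [← h2]; ring
      simpa using this
    rw [h3] at h0
    simp at h0
  set s : ℂ := (1 - κ i) / (1 + κ i) with hs
  have h2 : s ^ 2 = 1 - κ (i + 1) ^ 2 := by
    rw [hs, div_pow, ← h1]
    field_simp
  have h3 : ‖s‖ ^ 2 ≤ δ ^ 2 := by
    rw [← norm_pow, h2, ← norm_neg]
    simpa using hi
  have h4 : ‖s‖ ≤ δ := by
    exact le_of_sq_le_sq h3 hδ0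
  have h5 : κ i * (1 + s) = 1 - s := by
    rw [hs]
    field_simp
    ring
  have h6 := mob_le (h4.trans hδ) (Or.inl h5)
  linarith

/-- If `κ_{i+1}` is large then `κ_i²` is near `1`. -/
theorem tow_back {κ : ℕ → ℂ} (h : IsTow κ) {i : ℕ} {δ : ℝ} (hδ0 : 0 < δ) (hδ : δ ≤ 1 / 2)
    (hi : 1 / δ ^ 2 + 1 ≤ ‖κ (i + 1)‖ ^ 2) : ‖κ i ^ 2 - 1‖ ≤ 16 * δ := by
  have h1 := tow_one h i
  have h7 : 1 / δ ^ 2 ≤ ‖1 - κ (i + 1) ^ 2‖ := by
    have := norm_sub_norm_le (κ (i + 1) ^ 2) 1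
    rw [norm_one, norm_pow] at this
    rw [norm_sub_rev]
    linarith
  have h0 : 1 - κ i ≠ 0 := by
    intro h0
    have h2 : κ i = 1 := (sub_eq_zero.mp h0).symm
    rw [h2] at h1
    have h3 : (1 - κ (i + 1) ^ 2) = 0 := by
      have h4 : (1 - κ (i + 1) ^ 2) * (1 + 1) ^ 2 = 0 := by rw [h1]; ring
      have h5 : ((1 + 1 : ℂ)) ^ 2 ≠ 0 := by norm_num
      exact (mul_eq_zero.mp h4).resolve_right h5
    rw [h3, norm_zero] at h7
    have : 0 < 1 / δ ^ 2 := by positivity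
    linarith
  set s : ℂ := (1 + κ i) / (1 - κ i) with hs
  have h2 : (1 - κ (i + 1) ^ 2) * s ^ 2 = 1 := by
    rw [hs, div_pow, mul_div_assoc', h1]
    field_simp
  have h3 : ‖s‖ ^ 2 ≤ δ ^ 2 := by
    have h4 : ‖1 - κ (i + 1) ^ 2‖ * ‖s‖ ^ 2 = 1 := by
      have := congrArg norm h2
      rw [norm_mul, norm_pow, norm_one] at this
      exact this
    have h5 : 1 / δ ^ 2 * ‖s‖ ^ 2 ≤ 1 := (mul_le_mul_of_nonneg_right h7 (by positivity)).trans h4.le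
    have h6 : 0 < δ ^ 2 := by positivity
    calc ‖s‖ ^ 2 = δ ^ 2 * (1 / δ ^ 2 * ‖s‖ ^ 2) := by field_simp
      _ ≤ δ ^ 2 * 1 := mul_le_mul_of_nonneg_left h5 h6.le
      _ = δ ^ 2 := mul_one _
  have h4 : ‖s‖ ≤ δ := le_of_sq_le_sq h3 hδ0.le
  have h5 : κ i * (1 + s) = s - 1 := by
    rw [hs]
    field_simp
    ring
  have h6 := mob_le (h4.trans hδ) (Or.inr h5)
  linarith

/-- Going up: small stays small. -/
theorem up_small (m : ℕ) {δ : ℝ} (hδ : 0 < δ) : ∃ η : ℝ, 0 < η ∧ ∀ κ : ℕ → ℂ, IsTow κ → ∀ i,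
    ‖κ i‖ ≤ η → ∀ j, i ≤ j → j ≤ i + m → ‖κ j‖ ≤ δ := by
  induction m with
  | zero =>
    refine ⟨δ, hδ, fun κ _ i hi j h1 h2 => ?_⟩
    have : j = i := by omega
    rw [this]
    exact hi
  | succ m ih =>
    obtain ⟨η, hη, h⟩ := ih
    refine ⟨min η (min (1 / 2) (η ^ 2 / 16)), by positivity, fun κ hκ i hi j h1 h2 => ?_⟩
    rcases Nat.eq_or_lt_of_le h1 with h3 | h3
    · exact h κ hκ i (hi.trans (min_le_left _ _)) j h1 (by omega)
    · have h4 := tow_small hκ (hi.trans ((min_le_right _ _).trans (min_le_left _ _)))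
      have h5 : ‖κ (i + 1)‖ ^ 2 ≤ η ^ 2 := by
        have := hi.trans ((min_le_right _ _).trans (min_le_right _ _))
        linarith
      have h6 : ‖κ (i + 1)‖ ≤ η := le_of_sq_le_sq h5 hη.le
      exact h κ hκ (i + 1) h6 j (by omega) (by omega)

/-- Going down: near `1` stays near `1`. -/
theorem down_near (m : ℕ) {δ : ℝ} (hδ : 0 < δ) : ∃ η : ℝ, 0 < η ∧ ∀ κ : ℕ → ℂ, IsTow κ → ∀ i,
    ‖κ i ^ 2 - 1‖ ≤ η → ∀ j, j ≤ i → i ≤ j + m → ‖κ j ^ 2 - 1‖ ≤ δ := by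
  induction m with
  | zero =>
    refine ⟨δ, hδ, fun κ _ i hi j h1 h2 => ?_⟩
    have : j = i := by omega
    rw [this]
    exact hi
  | succ m ih =>
    obtain ⟨η, hη, h⟩ := ih
    set ρ : ℝ := min (1 / 2) (η / 16) with hρ
    have hρ0 : 0 < ρ := by positivity
    refine ⟨min η (ρ ^ 2), by positivity, fun κ hκ i hi j h1 h2 => ?_⟩
    rcases Nat.eq_or_lt_of_le h1 with h3 | h3
    · exact h κ hκ i (hi.trans (min_le_left _ _)) j h1 (by omega)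
    · obtain ⟨i', rfl⟩ : ∃ i', i = i' + 1 := ⟨i - 1, by omega⟩
      have h4 := tow_near hκ hρ0.le (min_le_left _ _) (hi.trans (min_le_right _ _))
      have h5 : ‖κ i' ^ 2 - 1‖ ≤ η := by
        have : ρ ≤ η / 16 := min_le_right _ _
        linarith
      exact h κ hκ i' h5 j (by omega) (by omega)

/-- If `κ_i` is large then the earlier `κ_j²` are near `1` and the later `κ_j` are small. -/
theorem local_main (m : ℕ) : ∃ B : ℝ, 1 ≤ B ∧ ∀ κ : ℕ → ℂ, IsTow κ → ∀ i ≤ m, B ≤ ‖κ i‖ ^ 2 →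
    (∀ j < i, ‖κ j ^ 2 - 1‖ ≤ 1 / 2) ∧ ∀ j, i < j → j ≤ m → ‖κ j‖ ^ 2 ≤ 1 := by
  obtain ⟨η, hη, h⟩ := up_small m (δ := 1) one_pos
  obtain ⟨η', hη', h'⟩ := down_near m (δ := 1 / 2) (by norm_num)
  set ρ : ℝ := min (1 / 2) (η' / 16) with hρ
  have hρ0 : 0 < ρ := by positivity
  refine ⟨max (1 / ρ ^ 2 + 1) (max 4 ((16 / η ^ 2) ^ 2)),
    le_max_of_le_right (le_max_of_le_left (by norm_num)), fun κ hκ i hi hB => ⟨fun j hj => ?_, fun j h1 h2 => ?_⟩⟩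
  · obtain ⟨i', rfl⟩ : ∃ i', i = i' + 1 := ⟨i - 1, by omega⟩
    have h4 := tow_back hκ hρ0 (min_le_left _ _) ((le_max_left _ _).trans hB)
    have h5 : ‖κ i' ^ 2 - 1‖ ≤ η' := by
      have : ρ ≤ η' / 16 := min_le_right _ _
      linarith
    exact h' κ hκ i' h5 j (by omega) (by omega)
  · have h3 : 2 ≤ ‖κ i‖ := by
      have h4 : (2 : ℝ) ^ 2 ≤ ‖κ i‖ ^ 2 := by
        have := ((le_max_left _ _).trans (le_max_right _ _)).trans hB
        norm_num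
        linarith
      exact le_of_sq_le_sq h4 (norm_nonneg _)
    have h4 : 16 / η ^ 2 ≤ ‖κ i‖ :=
      le_of_sq_le_sq (((le_max_right _ _).trans (le_max_right _ _)).trans hB) (norm_nonneg _)
    have h5 := tow_big hκ h3
    have h6 : ‖κ (i + 1)‖ ≤ η := by
      apply le_of_sq_le_sq _ hη.le
      have h7 : ‖κ (i + 1)‖ ^ 2 * (16 / η ^ 2) ≤ 16 :=
        (mul_le_mul_of_nonneg_left h4 (by positivity)).trans h5
      have h8 : 0 < η ^ 2 := by positivity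
      have h9 : ‖κ (i + 1)‖ ^ 2 * (16 / η ^ 2) * η ^ 2 ≤ 16 * η ^ 2 := mul_le_mul_of_nonneg_right h7 h8.le
      have h10 : ‖κ (i + 1)‖ ^ 2 * (16 / η ^ 2) * η ^ 2 = 16 * ‖κ (i + 1)‖ ^ 2 := by field_simp
      linarith
    have h7 := h κ hκ (i + 1) h6 j (by omega) (by omega)
    exact pow_le_one₀ (norm_nonneg _) h7

/-- The maximum of the partial products of the `κ_{f j}²` is at least a constant times the product of the
`max (1, |κ_{f j}|²)`. -/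
theorem prod_main (n : ℕ) (f : ℕ → ℕ) (hf : StrictMono f) : ∃ c : ℝ, 0 < c ∧ ∀ κ : ℕ → ℂ, IsTow κ →
    ∃ l ≤ n, c * ∏ j ∈ range n, max 1 (‖κ (f j)‖ ^ 2) ≤ ∏ j ∈ range l, ‖κ (f j)‖ ^ 2 := by
  obtain ⟨B, hB, h⟩ := local_main (f n)
  refine ⟨min ((1 / B) ^ n) ((1 / 3) ^ n), by positivity, fun κ hκ => ?_⟩
  by_cases hex : ∃ j < n, B ≤ ‖κ (f j)‖ ^ 2
  · obtain ⟨j, hj, hjB⟩ := hex
    refine ⟨j + 1, hj, ?_⟩
    obtain ⟨h1, h2⟩ := h κ hκ (f j) (hf.monotone hj.le) hjB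
    have e1 : ∏ i ∈ range n, max 1 (‖κ (f i)‖ ^ 2) ≤ (3 / 2) ^ j * ‖κ (f j)‖ ^ 2 := by
      have e2 : ∏ i ∈ range n, max 1 (‖κ (f i)‖ ^ 2) =
          (∏ i ∈ range (j + 1), max 1 (‖κ (f i)‖ ^ 2)) * ∏ i ∈ Ico (j + 1) n, max 1 (‖κ (f i)‖ ^ 2) :=
        (prod_range_mul_prod_Ico _ hj).symm
      have e3 : ∏ i ∈ Ico (j + 1) n, max 1 (‖κ (f i)‖ ^ 2) = 1 := by
        apply prod_eq_one
        intro i hi
        rw [mem_Ico] at hi
        exact max_eq_left (h2 (f i) (hf hi.1) (hf.monotone hi.2.le))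
      rw [e2, e3, mul_one, prod_range_succ, max_eq_right (hB.trans hjB)]
      refine mul_le_mul_of_nonneg_right ?_ (by positivity)
      calc ∏ i ∈ range j, max 1 (‖κ (f i)‖ ^ 2) ≤ ∏ _i ∈ range j, (3 / 2 : ℝ) := by
            refine prod_le_prod (fun _ _ => by positivity) fun i hi => max_le (by norm_num) ?_
            have h3 := h1 (f i) (hf (mem_range.mp hi))
            have h4 := norm_sub_norm_le (κ (f i) ^ 2) 1
            rw [norm_one, norm_pow] at h4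
            linarith
        _ = (3 / 2) ^ j := by rw [prod_const, card_range]
    have e4 : (1 / 2) ^ j * ‖κ (f j)‖ ^ 2 ≤ ∏ i ∈ range (j + 1), ‖κ (f i)‖ ^ 2 := by
      rw [prod_range_succ]
      refine mul_le_mul_of_nonneg_right ?_ (by positivity)
      calc (1 / 2 : ℝ) ^ j = ∏ _i ∈ range j, (1 / 2 : ℝ) := by rw [prod_const, card_range]
        _ ≤ ∏ i ∈ range j, ‖κ (f i)‖ ^ 2 := by
            refine prod_le_prod (fun _ _ => by positivity) fun i hi => ?_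
            have h3 := h1 (f i) (hf (mem_range.mp hi))
            have h4 := norm_sub_norm_le 1 (κ (f i) ^ 2)
            rw [norm_one, norm_pow, norm_sub_rev] at h4
            linarith
    have e5 : min ((1 / B) ^ n) ((1 / 3) ^ n) * ∏ i ∈ range n, max 1 (‖κ (f i)‖ ^ 2) ≤
        (1 / 3) ^ j * ((3 / 2) ^ j * ‖κ (f j)‖ ^ 2) := by
      refine mul_le_mul ((min_le_right _ _).trans (pow_le_pow_of_le_one (by norm_num) (by norm_num) hj.le)) e1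
        (prod_nonneg fun _ _ => by positivity) (by positivity)
    have e6 : (1 / 3 : ℝ) ^ j * ((3 / 2) ^ j * ‖κ (f j)‖ ^ 2) = (1 / 2) ^ j * ‖κ (f j)‖ ^ 2 := by
      rw [← mul_assoc, ← mul_pow]
      norm_num
    linarith
  · push Not at hex
    refine ⟨0, Nat.zero_le _, ?_⟩
    rw [range_zero, prod_empty]
    have e1 : ∏ j ∈ range n, max 1 (‖κ (f j)‖ ^ 2) ≤ B ^ n := by
      calc ∏ j ∈ range n, max 1 (‖κ (f j)‖ ^ 2) ≤ ∏ _j ∈ range n, B :=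
            prod_le_prod (fun _ _ => by positivity) fun i hi => max_le hB (hex i (mem_range.mp hi)).le
        _ = B ^ n := by rw [prod_const, card_range]
    calc min ((1 / B) ^ n) ((1 / 3) ^ n) * ∏ j ∈ range n, max 1 (‖κ (f j)‖ ^ 2) ≤ (1 / B) ^ n * B ^ n :=
          mul_le_mul (min_le_left _ _) e1 (prod_nonneg fun _ _ => by positivity) (by positivity)
      _ = 1 := by
          rw [← mul_pow, one_div_mul_cancel (by positivity), one_pow]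

end Pool.Agent.Helper61.VP
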