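import Mathlib

/-!
# Block P of VZ, polynomials: linear change of coordinates in affine charts
-/

set_option autoImplicit false

namespace Pool.Agent.Helper61.VP

open MvPolynomial Finset

variable {K : Type*} [Field K]

/-- the coordinates of `A (1, z)` as polynomials in `z` -/
private noncomputable def lp {n : ℕ} (A : Matrix (Fin (n + 1)) (Fin (n + 1)) K) (i : Fin (n + 1)) :
    MvPolynomial (Fin n) K := ∑ j, C (A i j) * (Fin.cons 1 X : Fin (n + 1) → MvPolynomial (Fin n) K) j

private theorem eval_lp {n : ℕ} (A : Matrix (Fin (n + 1)) (Fin (n + 1)) K) (i : Fin (n + 1)) (z : Fin n → K) :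
    eval z (lp A i) = A.mulVec (Fin.cons 1 z) i := by
  unfold lp
  rw [map_sum]
  show _ = ∑ j, A i j * (Fin.cons 1 z : Fin (n + 1) → K) j
  refine sum_congr rfl fun j _ => ?_
  rw [map_mul, eval_C]
  congr 1
  refine Fin.cases ?_ (fun j => ?_) j
  · simp
  · simp

private theorem deg_lp {n : ℕ} (A : Matrix (Fin (n + 1)) (Fin (n + 1)) K) (i : Fin (n + 1)) :
    (lp A i).totalDegree ≤ 1 := by
  unfold lp
  refine (totalDegree_finsetSum _ _).trans (Finset.sup_le fun j _ => ?_)
  refine (totalDegree_mul _ _).trans ?_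
  rw [totalDegree_C, zero_add]
  refine Fin.cases ?_ (fun j => ?_) j
  · simp
  · simp

/-- the homogenisation of `G` at `A (1, z)` -/
private noncomputable def hp {n : ℕ} (A : Matrix (Fin (n + 1)) (Fin (n + 1)) K) (G : MvPolynomial (Fin n) K) :
    MvPolynomial (Fin n) K :=
  ∑ d ∈ G.support, C (G.coeff d) * ((∏ i, lp A i.succ ^ d i) * lp A 0 ^ (G.totalDegree - ∑ i, d i))

private theorem sum_le_deg {n : ℕ} {G : MvPolynomial (Fin n) K} {d : Fin n →₀ ℕ} (hd : d ∈ G.support) :
    ∑ i, d i ≤ G.totalDegree := by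
  have h := le_totalDegree hd
  rw [Finsupp.sum_fintype _ _ (fun _ => rfl)] at h
  exact h

private theorem eval_hp {n : ℕ} (A : Matrix (Fin (n + 1)) (Fin (n + 1)) K) (G : MvPolynomial (Fin n) K)
    (z : Fin n → K) (h0 : A.mulVec (Fin.cons 1 z) 0 ≠ 0) :
    eval z (hp A G) = A.mulVec (Fin.cons 1 z) 0 ^ G.totalDegree *
      eval (fun i : Fin n => A.mulVec (Fin.cons 1 z) i.succ / A.mulVec (Fin.cons 1 z) 0) G := by
  unfold hp
  rw [eval_eq' _ G, map_sum, mul_sum]
  refine sum_congr rfl fun d hd => ?_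
  simp only [map_mul, map_prod, map_pow, eval_C, eval_lp]
  have h1 := sum_le_deg hd
  have h2 : ∏ i : Fin n, (A.mulVec (Fin.cons 1 z) i.succ / A.mulVec (Fin.cons 1 z) 0) ^ d i =
      (∏ i : Fin n, A.mulVec (Fin.cons 1 z) i.succ ^ d i) / A.mulVec (Fin.cons 1 z) 0 ^ (∑ i, d i) := by
    simp only [div_pow]
    rw [prod_div_distrib, prod_pow_eq_pow_sum]
  have h3 : A.mulVec (Fin.cons 1 z) 0 ^ G.totalDegree =
      A.mulVec (Fin.cons 1 z) 0 ^ (G.totalDegree - ∑ i, d i) * A.mulVec (Fin.cons 1 z) 0 ^ (∑ i, d i) := by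
    rw [← pow_add, Nat.sub_add_cancel h1]
  rw [h2, h3]
  have h4 := pow_ne_zero (∑ i, d i) h0
  field_simp

private theorem deg_hp {n : ℕ} (A : Matrix (Fin (n + 1)) (Fin (n + 1)) K) (G : MvPolynomial (Fin n) K) :
    (hp A G).totalDegree ≤ G.totalDegree := by
  unfold hp
  refine (totalDegree_finsetSum _ _).trans (Finset.sup_le fun d hd => ?_)
  have h1 := sum_le_deg hd
  refine (totalDegree_mul _ _).trans ?_
  rw [totalDegree_C, zero_add]
  refine (totalDegree_mul _ _).trans ?_
  have h2 : (∏ i : Fin n, lp A i.succ ^ d i).totalDegree ≤ ∑ i, d i := by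
    refine (totalDegree_finsetProd _ _).trans (sum_le_sum fun i _ => ?_)
    refine (totalDegree_pow _ _).trans ?_
    calc d i * (lp A i.succ).totalDegree ≤ d i * 1 := Nat.mul_le_mul_left _ (deg_lp A _)
      _ = d i := mul_one _
  have h3 : (lp A 0 ^ (G.totalDegree - ∑ i, d i)).totalDegree ≤ G.totalDegree - ∑ i, d i := by
    refine (totalDegree_pow _ _).trans ?_
    calc _ ≤ (G.totalDegree - ∑ i, d i) * 1 := Nat.mul_le_mul_left _ (deg_lp A _)
      _ = _ := mul_one _
  omega

theorem lin_poly [Infinite K] {n : ℕ} (A : Matrix (Fin (n + 1)) (Fin (n + 1)) K) (hA : A.det ≠ 0)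
    (G : MvPolynomial (Fin n) K) (hG : G ≠ 0) :
    ∃ G2 : MvPolynomial (Fin n) K, G2 ≠ 0 ∧ G2.totalDegree ≤ G.totalDegree + 1 ∧
      ∀ z : Fin n → K, eval z G2 ≠ 0 → A.mulVec (Fin.cons 1 z) 0 ≠ 0 ∧
        eval (fun i : Fin n => A.mulVec (Fin.cons 1 z) i.succ / A.mulVec (Fin.cons 1 z) 0) G ≠ 0 := by
  classical
  have hAu : IsUnit A.det := isUnit_iff_ne_zero.mpr hA
  refine ⟨lp A 0 * hp A G, ?_, ?_, ?_⟩
  · -- the row `0` of the inverse matrix gives a non zero polynomial
    have h1 : lp A⁻¹ 0 ≠ 0 := by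
      intro h
      have hrow : ∀ j, A⁻¹ 0 j = 0 := by
        have hev : ∀ z : Fin n → K, ∑ j, A⁻¹ 0 j * (Fin.cons 1 z : Fin (n + 1) → K) j = 0 := by
          intro z
          have := eval_lp A⁻¹ 0 z
          rw [h, map_zero] at this
          exact this.symm
        have h00 : A⁻¹ 0 0 = 0 := by
          have := hev 0
          rw [Fin.sum_univ_succ] at this
          simpa using this
        intro j
        refine Fin.cases h00 (fun j => ?_) j
        have := hev (Pi.single j 1)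
        rw [Fin.sum_univ_succ, h00] at this
        simpa [Pi.single_apply] using this
      have h2 : A⁻¹.det = 0 := Matrix.det_eq_zero_of_row_eq_zero 0 hrow
      rw [Matrix.det_nonsing_inv] at h2
      exact (hAu.ringInverse).ne_zero h2
    obtain ⟨y, hy⟩ : ∃ y : Fin n → K, eval y (lp A⁻¹ 0 * G) ≠ 0 := by
      by_contra hcon
      push Not at hcon
      exact mul_ne_zero h1 hG (MvPolynomial.funext fun y => by rw [hcon y, map_zero])
    rw [map_mul, eval_lp] at hy
    have hu0 := left_ne_zero_of_mul hy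
    have hGy := right_ne_zero_of_mul hy
    set u : Fin (n + 1) → K := A⁻¹.mulVec (Fin.cons 1 y) with hu
    set z : Fin n → K := fun i => u i.succ / u 0 with hz
    have hcz : (Fin.cons 1 z : Fin (n + 1) → K) = (u 0)⁻¹ • u := by
      funext i
      refine Fin.cases ?_ (fun i => ?_) i
      · rw [Fin.cons_zero, Pi.smul_apply, smul_eq_mul, inv_mul_cancel₀ hu0]
      · rw [Fin.cons_succ, Pi.smul_apply, smul_eq_mul]
        exact div_eq_inv_mul _ _
    have hAz : A.mulVec (Fin.cons 1 z) = (u 0)⁻¹ • (Fin.cons 1 y : Fin (n + 1) → K) := by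
      rw [hcz, Matrix.mulVec_smul, hu, Matrix.mulVec_mulVec, Matrix.mul_nonsing_inv _ hAu, Matrix.one_mulVec]
    have hA0 : A.mulVec (Fin.cons 1 z) 0 = (u 0)⁻¹ := by
      rw [hAz, Pi.smul_apply, Fin.cons_zero, smul_eq_mul, mul_one]
    have hA1 : (fun i : Fin n => A.mulVec (Fin.cons 1 z) i.succ / A.mulVec (Fin.cons 1 z) 0) = y := by
      funext i
      rw [hA0, hAz, Pi.smul_apply, Fin.cons_succ, smul_eq_mul, mul_comm, mul_div_assoc, div_self (inv_ne_zero hu0),
        mul_one]
    intro h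
    have h3 := congrArg (eval z) h
    rw [map_mul, map_zero, eval_lp, eval_hp A G z (by rw [hA0]; exact inv_ne_zero hu0), hA1, hA0] at h3
    exact mul_ne_zero (inv_ne_zero hu0) (mul_ne_zero (pow_ne_zero _ (inv_ne_zero hu0)) hGy) h3
  · refine (totalDegree_mul _ _).trans ?_
    have := deg_lp A 0
    have := deg_hp A G
    omega
  · intro z hz
    rw [map_mul, eval_lp] at hz
    have h0 := left_ne_zero_of_mul hz
    refine ⟨h0, fun h => ?_⟩
    apply right_ne_zero_of_mul hz
    rw [eval_hp A G z h0, h, mul_zero]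

theorem transport_poly {k : Type*} [Field k] [CharZero k] {n : ℕ} (A : Matrix (Fin (n + 1)) (Fin (n + 1)) k)
    (hA : A.det ≠ 0) (G : MvPolynomial (Fin n) (AlgebraicClosure k)) (hG : G ≠ 0) :
    ∃ G2 : MvPolynomial (Fin n) (AlgebraicClosure k), G2 ≠ 0 ∧ G2.totalDegree ≤ G.totalDegree + 1 ∧
      ∀ z : Fin n → AlgebraicClosure k, eval z G2 ≠ 0 →
        (A.map (algebraMap k (AlgebraicClosure k))).mulVec (Fin.cons 1 z) 0 ≠ 0 ∧
        eval (fun i : Fin n => (A.map (algebraMap k (AlgebraicClosure k))).mulVec (Fin.cons 1 z) i.succ /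
          (A.map (algebraMap k (AlgebraicClosure k))).mulVec (Fin.cons 1 z) 0) G ≠ 0 := by
  have : CharZero (AlgebraicClosure k) := charZero_of_injective_algebraMap (algebraMap k (AlgebraicClosure k)).injective
  apply lin_poly _ _ G hG
  have h : (A.map (algebraMap k (AlgebraicClosure k))).det = algebraMap k (AlgebraicClosure k) A.det :=
    ((algebraMap k (AlgebraicClosure k)).map_det A).symm
  rw [h]
  exact (map_ne_zero_iff _ (algebraMap k (AlgebraicClosure k)).injective).mpr hA

end Pool.Agent.Helper61.VP
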