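import Mathlib
import Pool.Agent.Helper64.Vojta.Bounds
import Pool.Agent.Helper52.Vojta.BaseChange
import Pool.Agent.Helper21.V2.FA

/-!
# Block P of VZ: transport from the hyperplanes `z_0, ..., z_n, z_0 + ... + z_n` to `q ≥ n + 2` hyperplanes in
general position
-/

set_option autoImplicit false

namespace Pool.Agent.Helper61.VP

open NumberField Module Finset
open Pool.Agent.Helper64.Vojta
open Pool.Agent.Helper52.Vojta (ldeg)

universe u v

section alg

variable {k : Type*} [Field k]

/-- `x = A z` -/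
def img {F : Type*} [Field F] [Algebra k F] {m m' : ℕ} (A : Matrix (Fin m) (Fin m') k) (z : Fin m' → F) : Fin m → F :=
  (A.map (algebraMap k F)).mulVec z

theorem img_apply {F : Type*} [Field F] [Algebra k F] {m m' : ℕ} (A : Matrix (Fin m) (Fin m') k) (z : Fin m' → F)
    (i : Fin m) : img A z i = ∑ j, algebraMap k F (A i j) * z j := rfl

theorem img_img {F : Type*} [Field F] [Algebra k F] {m m' m'' : ℕ} (A : Matrix (Fin m) (Fin m') k)
    (B : Matrix (Fin m') (Fin m'') k) (z : Fin m'' → F) : img A (img B z) = img (A * B) z := by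
  unfold img
  rw [Matrix.mulVec_mulVec, ← Matrix.map_mul]

theorem img_inv {F : Type*} [Field F] [Algebra k F] {m : ℕ} (A : Matrix (Fin m) (Fin m) k) (hA : A.det ≠ 0)
    (z : Fin m → F) : img A⁻¹ (img A z) = z := by
  rw [img_img, Matrix.nonsing_inv_mul _ (isUnit_iff_ne_zero.mpr hA)]
  unfold img
  rw [Matrix.map_one _ (map_zero _) (map_one _), Matrix.one_mulVec]

/-- the linear algebra: `z_i = b_i Λ_i(x)`, `∑ z_i = Λ_{n+1}(x)` -/
theorem exists_mat {n p : ℕ} (Lam : Fin (n + 2 + p) → Fin (n + 1) → k)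
    (hL : ∀ f : Fin (n + 1) → Fin (n + 2 + p), Function.Injective f →
      (Matrix.of fun i j => Lam (f i) j).det ≠ 0) :
    ∃ (A : Matrix (Fin (n + 1)) (Fin (n + 1)) k) (b : Fin (n + 1) → k), A.det ≠ 0 ∧ (∀ i, b i ≠ 0) ∧
      ∀ (F : Type v) [Field F] [Algebra k F] (z : Fin (n + 1) → F),
        (∀ i : Fin (n + 1), algebraMap k F (b i) * ∑ j, algebraMap k F (Lam (Fin.castAdd p i.castSucc) j) * img A z j = z i) ∧
        ∑ j, algebraMap k F (Lam (Fin.castAdd p (Fin.last (n + 1))) j) * img A z j = ∑ i, z i := by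
  classical
  set M : Matrix (Fin (n + 1)) (Fin (n + 1)) k := Matrix.of fun i j => Lam (Fin.castAdd p i.castSucc) j with hM
  have hMd : M.det ≠ 0 := hL (fun i => Fin.castAdd p i.castSucc) (by
    intro i i' h
    exact Fin.castSucc_injective _ (Fin.castAdd_injective _ _ h))
  have hMu : IsUnit M.det := isUnit_iff_ne_zero.mpr hMd
  set R : Fin (n + 1) → k := Lam (Fin.castAdd p (Fin.last (n + 1))) with hR
  set b : Fin (n + 1) → k := Matrix.vecMul R M⁻¹ with hb
  have hbM : Matrix.vecMul b M = R := by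
    rw [hb, Matrix.vecMul_vecMul, Matrix.nonsing_inv_mul _ hMu, Matrix.vecMul_one]
  have hbs : (∑ i, b i • M i) = R := by
    rw [← hbM]
    funext j
    rw [Finset.sum_apply]
    simp only [Matrix.vecMul, dotProduct, Pi.smul_apply, smul_eq_mul]
  have hb0 : ∀ i, b i ≠ 0 := by
    intro i h0
    have h1 : (M.updateRow i R).det = b i • M.det := by
      rw [← hbs]
      exact Matrix.det_updateRow_sum M i b
    rw [h0, zero_smul] at h1
    apply hL (fun i' => Fin.castAdd p (if i' = i then Fin.last (n + 1) else i'.castSucc)) ?_ ?_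
    · intro a a' h
      have h2 := Fin.castAdd_injective _ _ h
      by_cases ha : a = i <;> by_cases ha' : a' = i
      · rw [ha, ha']
      · rw [if_pos ha, if_neg ha'] at h2
        exact absurd h2.symm (Fin.castSucc_lt_last a').ne
      · rw [if_neg ha, if_pos ha'] at h2
        exact absurd h2 (Fin.castSucc_lt_last a).ne
      · rw [if_neg ha, if_neg ha'] at h2
        exact Fin.castSucc_injective _ h2
    · rw [← h1]
      congr 1
      ext a j
      rw [Matrix.updateRow_apply]
      by_cases ha : a = i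
      · rw [if_pos ha, Matrix.of_apply, if_pos ha]
      · rw [if_neg ha, Matrix.of_apply, if_neg ha]
        rfl
  refine ⟨M⁻¹ * Matrix.diagonal (fun i => (b i)⁻¹), b, ?_, hb0, fun F _ _ z => ?_⟩
  · rw [Matrix.det_mul, Matrix.det_diagonal]
    refine mul_ne_zero ?_ (prod_ne_zero_iff.mpr fun i _ => inv_ne_zero (hb0 i))
    rw [Matrix.det_nonsing_inv]
    exact (hMu.ringInverse).ne_zero
  · have h1 : img M (img (M⁻¹ * Matrix.diagonal (fun i => (b i)⁻¹)) z) = fun i => algebraMap k F (b i)⁻¹ * z i := by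
      rw [img_img, ← Matrix.mul_assoc, Matrix.mul_nonsing_inv _ hMu, Matrix.one_mul]
      funext i
      rw [img_apply, sum_eq_single i]
      · rw [Matrix.diagonal_apply_eq]
      · intro j _ hj
        rw [Matrix.diagonal_apply_ne _ hj.symm, map_zero, zero_mul]
      · intro h
        exact absurd (mem_univ i) h
    set x := img (M⁻¹ * Matrix.diagonal (fun i => (b i)⁻¹)) z with hx
    have h2 : ∀ i : Fin (n + 1), ∑ j, algebraMap k F (Lam (Fin.castAdd p i.castSucc) j) * x j =
        algebraMap k F (b i)⁻¹ * z i := fun i => congrFun h1 i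
    have h3 : ∀ i : Fin (n + 1), algebraMap k F (b i) *
        ∑ j, algebraMap k F (Lam (Fin.castAdd p i.castSucc) j) * x j = z i := by
      intro i
      rw [h2 i, ← mul_assoc, ← map_mul, mul_inv_cancel₀ (hb0 i), map_one, one_mul]
    refine ⟨h3, ?_⟩
    have h4 : ∀ j, R j = ∑ i, b i * M i j := by
      intro j
      rw [← hbM]
      rfl
    calc ∑ j, algebraMap k F (R j) * x j = ∑ j, ∑ i, algebraMap k F (b i) * (algebraMap k F (M i j) * x j) := by
          refine sum_congr rfl fun j _ => ?_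
          rw [h4 j, map_sum, sum_mul]
          refine sum_congr rfl fun i _ => ?_
          rw [map_mul]
          ring
      _ = ∑ i, ∑ j, algebraMap k F (b i) * (algebraMap k F (M i j) * x j) := sum_comm
      _ = ∑ i, z i := by
          refine sum_congr rfl fun i _ => ?_
          rw [← mul_sum]
          exact h3 i

end alg

section arith

variable {k : Type u} [Field k] [NumberField k]

/-- the constant of a matrix at a place -/
noncomputable def cB {m m' : ℕ} (B : Matrix (Fin m) (Fin m') k) (ν : Pl k) : ℝ :=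
  ∑ i, ∑ j, |Real.log (max 1 (nv ν (B i j)))| + 2 * Real.log (m' + 1)

theorem cB_nonneg {m m' : ℕ} (B : Matrix (Fin m) (Fin m') k) (ν : Pl k) : 0 ≤ cB B ν := by
  unfold cB
  have h1 : 0 ≤ Real.log ((m' : ℝ) + 1) := Real.log_nonneg (by
    have : (0 : ℝ) ≤ m' := Nat.cast_nonneg _
    linarith)
  have h2 : 0 ≤ ∑ i, ∑ j, |Real.log (max 1 (nv ν (B i j)))| := sum_nonneg fun i _ => sum_nonneg fun j _ => abs_nonneg _
  linarith

theorem entry_le {F : Type v} [Field F] [NumberField F] [Algebra k F] {m m' : ℕ} (B : Matrix (Fin m) (Fin m') k)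
    {ν : Pl k} {w : Pl F} (hw : w ∈ above F ν) (i : Fin m) (j : Fin m') :
    nv w (algebraMap k F (B i j)) ≤ Real.exp (ldeg ν w * ∑ i, ∑ j, |Real.log (max 1 (nv ν (B i j)))|) := by
  rw [Helper52.Vojta.nv_above hw]
  have h1 : nv ν (B i j) ≤ Real.exp (∑ i, ∑ j, |Real.log (max 1 (nv ν (B i j)))|) := by
    calc nv ν (B i j) ≤ max 1 (nv ν (B i j)) := le_max_right _ _
      _ = Real.exp (Real.log (max 1 (nv ν (B i j)))) := (Real.exp_log (by positivity)).symm
      _ ≤ _ := by
          apply Real.exp_le_exp.mpr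
          calc Real.log (max 1 (nv ν (B i j))) ≤ |Real.log (max 1 (nv ν (B i j)))| := le_abs_self _
            _ ≤ ∑ j, |Real.log (max 1 (nv ν (B i j)))| :=
                single_le_sum (f := fun j => |Real.log (max 1 (nv ν (B i j)))|) (fun _ _ => abs_nonneg _) (mem_univ j)
            _ ≤ ∑ i, ∑ j, |Real.log (max 1 (nv ν (B i j)))| :=
                single_le_sum (f := fun i => ∑ j, |Real.log (max 1 (nv ν (B i j)))|)
                  (fun _ _ => sum_nonneg fun _ _ => abs_nonneg _) (mem_univ i)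
  calc nv ν (B i j) ^ ldeg ν w ≤ Real.exp (∑ i, ∑ j, |Real.log (max 1 (nv ν (B i j)))|) ^ ldeg ν w :=
        pow_le_pow_left₀ (nv_nonneg _ _) h1 _
    _ = _ := by rw [← Real.exp_nat_mul]

/-- the local comparison for one coordinate -/
theorem row_le {F : Type v} [Field F] [NumberField F] [Algebra k F] {m m' : ℕ} (B : Matrix (Fin m) (Fin m') k)
    {ν : Pl k} {w : Pl F} (hw : w ∈ above F ν) (z : Fin m' → F) (i : Fin m) :
    nv w (img B z i) ≤ Real.exp (ldeg ν w * cB B ν) * sn w z := by
  have hs : 0 ≤ sn w z := Real.iSup_nonneg fun i => nv_nonneg _ _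
  have h0 : (0 : ℝ) ≤ m' := Nat.cast_nonneg _
  rw [img_apply]
  have h1 := nv_sum_le w (Finset.univ : Finset (Fin m')) (fun j => algebraMap k F (B i j) * z j)
    (Real.exp (ldeg ν w * ∑ i, ∑ j, |Real.log (max 1 (nv ν (B i j)))|) * sn w z) (by positivity) (fun j _ => by
      rw [nv_mul]
      exact mul_le_mul (entry_le B hw i j) (le_sn w z j) (nv_nonneg _ _) (by positivity))
  refine h1.trans ?_
  rw [card_univ, Fintype.card_fin, ← mul_assoc]
  refine mul_le_mul_of_nonneg_right ?_ hs
  have h2 : ((m' : ℝ) + 1) ^ 2 = Real.exp (2 * Real.log (m' + 1)) := by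
    rw [mul_comm, Real.exp_mul, Real.exp_log (by positivity)]
    norm_num
  have h3 : (1 : ℝ) ≤ ldeg ν w := by exact_mod_cast V2.FA.ldeg_pos hw
  rw [h2, ← Real.exp_add]
  apply Real.exp_le_exp.mpr
  unfold cB
  have h4 : 0 ≤ 2 * Real.log ((m' : ℝ) + 1) := mul_nonneg (by norm_num) (Real.log_nonneg (by linarith))
  nlinarith

theorem sn_img_le {F : Type v} [Field F] [NumberField F] [Algebra k F] {m m' : ℕ} (B : Matrix (Fin m) (Fin m') k)
    {ν : Pl k} {w : Pl F} (hw : w ∈ above F ν) (z : Fin m' → F) :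
    sn w (img B z) ≤ Real.exp (ldeg ν w * cB B ν) * sn w z := by
  have hs : 0 ≤ sn w z := Real.iSup_nonneg fun i => nv_nonneg _ _
  exact sn_le w _ _ (by positivity) fun i => row_le B hw z i

theorem log_sn_img_le {F : Type v} [Field F] [NumberField F] [Algebra k F] {m m' : ℕ} (B : Matrix (Fin m) (Fin m') k)
    {ν : Pl k} {w : Pl F} (hw : w ∈ above F ν) (z : Fin m' → F) (hz : z ≠ 0) (hBz : img B z ≠ 0) :
    Real.log (sn w (img B z)) ≤ Real.log (sn w z) + ldeg ν w * cB B ν := by
  have h1 := Real.log_le_log (sn_pos w hBz) (sn_img_le B hw z)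
  rw [Real.log_mul (Real.exp_ne_zero _) (sn_pos w hz).ne', Real.log_exp] at h1
  linarith

/-- all the entries and `1` -/
noncomputable def ent {m m' : ℕ} (B : Matrix (Fin m) (Fin m') k) : Fin (m * m' + 1) → k :=
  Fin.cons 1 (fun i => B (finProdFinEquiv.symm i).1 (finProdFinEquiv.symm i).2)

theorem ent_ne {m m' : ℕ} (B : Matrix (Fin m) (Fin m') k) : ent B ≠ 0 := by
  intro h
  have := congrFun h 0
  simp [ent] at this

omit [NumberField k] in
theorem one_le_ent {F : Type v} [Field F] [NumberField F] [Algebra k F] {m m' : ℕ} (B : Matrix (Fin m) (Fin m') k)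
    (w : Pl F) : 1 ≤ sn w (fun i => algebraMap k F (ent B i)) := by
  have h := le_sn w (fun i => algebraMap k F (ent B i)) 0
  have h1 : ent B 0 = 1 := rfl
  rw [h1, map_one, nv_one] at h
  exact h

omit [NumberField k] in
theorem entry_le_ent {F : Type v} [Field F] [NumberField F] [Algebra k F] {m m' : ℕ} (B : Matrix (Fin m) (Fin m') k)
    (w : Pl F) (i : Fin m) (j : Fin m') : nv w (algebraMap k F (B i j)) ≤ sn w (fun i => algebraMap k F (ent B i)) := by
  have h := le_sn w (fun i => algebraMap k F (ent B i)) (Fin.succ (finProdFinEquiv (i, j)))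
  have h1 : ent B (Fin.succ (finProdFinEquiv (i, j))) = B i j := by
    unfold ent
    rw [Fin.cons_succ, Equiv.symm_apply_apply]
  rw [h1] at h
  exact h

theorem height_img_le {m m' : ℕ} (B : Matrix (Fin m) (Fin m') k) : ∃ C : ℝ, ∀ (F : Type v) [Field F] [NumberField F]
    [Algebra k F] (z : Fin m' → F), z ≠ 0 → img B z ≠ 0 →
      Height.logHeight (img B z) ≤ Height.logHeight z + C * finrank k F := by
  refine ⟨Height.logHeight (ent B) + finrank ℚ k * (2 * Real.log (m' + 1)), fun F _ _ _ z hz hBz => ?_⟩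
  set E : Fin (m * m' + 1) → F := fun i => algebraMap k F (ent B i) with hE
  have hE0 : E ≠ 0 := by
    intro h
    have h1 := congrFun h 0
    have h2 : ent B 0 = 1 := rfl
    simp only [hE, h2, map_one, Pi.zero_apply] at h1
    exact one_ne_zero h1
  have hsp : ∀ w : Pl F, 0 ≤ sn w z := fun w => Real.iSup_nonneg fun i => nv_nonneg _ _
  have hm0 : (0 : ℝ) ≤ m' := Nat.cast_nonneg _
  have hinf : ∀ w : InfinitePlace F, Real.log (sn (.inl w) (img B z)) ≤
      Real.log (sn (.inl w) z) + Real.log (sn (.inl w) E) + 2 * Real.log (m' + 1) := by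
    intro w
    have h1 : sn (.inl w) (img B z) ≤ ((m' : ℝ) + 1) ^ 2 * (sn (.inl w) E * sn (.inl w) z) := by
      refine sn_le _ _ _ (by
        have := one_le_ent (F := F) B (.inl w)
        have := hsp (.inl w)
        positivity) fun i => ?_
      rw [img_apply]
      have h2 := nv_sum_le (.inl w) (Finset.univ : Finset (Fin m')) (fun j => algebraMap k F (B i j) * z j)
        (sn (.inl w) E * sn (.inl w) z) (mul_nonneg (zero_le_one.trans (one_le_ent B _)) (hsp _)) (fun j _ => by
          rw [nv_mul]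
          exact mul_le_mul (entry_le_ent B _ i j) (le_sn _ z j) (nv_nonneg _ _) (zero_le_one.trans (one_le_ent B _)))
      rw [card_univ, Fintype.card_fin] at h2
      exact h2
    have h3 := Real.log_le_log (sn_pos _ hBz) h1
    rw [Real.log_mul (by positivity) (mul_ne_zero (sn_pos _ hE0).ne' (sn_pos _ hz).ne'),
      Real.log_mul (sn_pos _ hE0).ne' (sn_pos _ hz).ne', Real.log_pow] at h3
    push_cast at h3
    linarith
  have hfin : ∀ w : FinitePlace F, Real.log (sn (.inr w) (img B z)) ≤
      Real.log (sn (.inr w) z) + Real.log (sn (.inr w) E) := by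
    intro w
    have h1 : sn (.inr w) (img B z) ≤ sn (.inr w) E * sn (.inr w) z := by
      refine sn_le _ _ _ (mul_nonneg (zero_le_one.trans (one_le_ent B _)) (hsp _)) fun i => ?_
      rw [img_apply]
      exact nv_sum_le_inr w (Finset.univ : Finset (Fin m')) (fun j => algebraMap k F (B i j) * z j)
        (sn (.inr w) E * sn (.inr w) z) (mul_nonneg (zero_le_one.trans (one_le_ent B _)) (hsp _)) (fun j _ => by
          rw [nv_mul]
          exact mul_le_mul (entry_le_ent B _ i j) (le_sn _ z j) (nv_nonneg _ _) (zero_le_one.trans (one_le_ent B _)))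
    have h3 := Real.log_le_log (sn_pos _ hBz) h1
    rw [Real.log_mul (sn_pos _ hE0).ne' (sn_pos _ hz).ne'] at h3
    linarith
  have s1 : (Function.support fun w : FinitePlace F => Real.log (sn (.inr w) (img B z))).Finite :=
    log_support _ (fin_support_sn hBz)
  have s2 : (Function.support fun w : FinitePlace F => Real.log (sn (.inr w) z)).Finite :=
    log_support _ (fin_support_sn hz)
  have s3 : (Function.support fun w : FinitePlace F => Real.log (sn (.inr w) E)).Finite :=
    log_support _ (fin_support_sn hE0)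
  have e1 : Height.logHeight E = finrank k F * Height.logHeight (ent B) :=
    Helper52.Vojta.logHeight_algebraMap (ent_ne B)
  have e2 := logHeight_eq hE0
  have e3 := logHeight_eq hz
  have e4 := logHeight_eq hBz
  have f1 : ∑ w : InfinitePlace F, Real.log (sn (.inl w) (img B z)) ≤
      ∑ w : InfinitePlace F, Real.log (sn (.inl w) z) + ∑ w : InfinitePlace F, Real.log (sn (.inl w) E) +
        Fintype.card (InfinitePlace F) * (2 * Real.log (m' + 1)) := by
    refine (sum_le_sum fun w _ => hinf w).trans (le_of_eq ?_)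
    rw [sum_add_distrib, sum_add_distrib, sum_const, card_univ, nsmul_eq_mul]
  have f2 : ∑ᶠ w : FinitePlace F, Real.log (sn (.inr w) (img B z)) ≤
      ∑ᶠ w : FinitePlace F, Real.log (sn (.inr w) z) + ∑ᶠ w : FinitePlace F, Real.log (sn (.inr w) E) := by
    rw [← finsum_add_distrib s2 s3]
    exact finsum_le_finsum' s1 ((s2.union s3).subset (Function.support_add _ _)) hfin
  have g1 : (Fintype.card (InfinitePlace F) : ℝ) ≤ finrank ℚ k * finrank k F := by
    have h1 := card_inf_le F
    have h2 : finrank ℚ k * finrank k F = finrank ℚ F := finrank_mul_finrank ℚ k F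
    rw [← h2] at h1
    exact_mod_cast h1
  have g2 : 0 ≤ 2 * Real.log ((m' : ℝ) + 1) := mul_nonneg (by norm_num) (Real.log_nonneg (by linarith))
  have g3 := mul_le_mul_of_nonneg_right g1 g2
  rw [e4]
  have g4 : (Height.logHeight (ent B) + finrank ℚ k * (2 * Real.log ((m' : ℝ) + 1))) * (finrank k F : ℝ) =
      finrank k F * Height.logHeight (ent B) + (finrank ℚ k * finrank k F) * (2 * Real.log ((m' : ℝ) + 1)) := by ring
  rw [g4, ← e1]
  linarith

/-- Block P. -/
theorem transport {n q : ℕ} (hq : n + 2 ≤ q) (Lam : Fin q → Fin (n + 1) → k)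
    (hL : ∀ f : Fin (n + 1) → Fin q, Function.Injective f → (Matrix.of fun i j => Lam (f i) j).det ≠ 0) :
    ∃ A : Matrix (Fin (n + 1)) (Fin (n + 1)) k, A.det ≠ 0 ∧
      (∃ C : ℝ, ∀ (F : Type v) [Field F] [NumberField F] [Algebra k F] (z : Fin (n + 1) → F), z ≠ 0 →
        |Height.logHeight ((A.map (algebraMap k F)).mulVec z) - Height.logHeight z| ≤ C * finrank k F) ∧
      ∀ S : Finset (Pl k), ∃ C : ℝ, ∀ (F : Type v) [Field F] [NumberField F] [Algebra k F] (z : Fin (n + 1) → F),
        (∀ i, z i ≠ 0) → ∑ i, z i ≠ 0 →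
        (∀ i, ∑ j, algebraMap k F (Lam i j) * ((A.map (algebraMap k F)).mulVec z) j ≠ 0) →
        ∑ ν ∈ S, ∑ w ∈ above F ν, ((∑ i, (Real.log (sn w z) - Real.log (nv w (z i)))) +
            (Real.log (sn w z) - Real.log (nv w (∑ i, z i)))) - C * finrank k F ≤
          ∑ ν ∈ S, ∑ w ∈ above F ν, ∑ i, (Real.log (sn w ((A.map (algebraMap k F)).mulVec z)) -
            Real.log (nv w (∑ j, algebraMap k F (Lam i j) * ((A.map (algebraMap k F)).mulVec z) j))) := by
  classical
  obtain ⟨p, rfl⟩ : ∃ p, q = n + 2 + p := ⟨q - (n + 2), by omega⟩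
  obtain ⟨A, b, hA, hb, hAb⟩ := exists_mat.{v, u} Lam hL
  have hne : ∀ (F : Type v) [Field F] [Algebra k F] (z : Fin (n + 1) → F), z ≠ 0 → img A z ≠ 0 := by
    intro F _ _ z hz h
    apply hz
    rw [← img_inv A hA z, h]
    unfold img
    exact Matrix.mulVec_zero _
  refine ⟨A, hA, ?_, ?_⟩
  · obtain ⟨C1, h1⟩ := height_img_le.{u, v} A
    obtain ⟨C2, h2⟩ := height_img_le.{u, v} A⁻¹
    refine ⟨max C1 C2, fun F _ _ _ z hz => ?_⟩
    have h3 := h1 F z hz (hne F z hz)
    have h4 := h2 F (img A z) (hne F z hz) (by rw [img_inv A hA]; exact hz)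
    rw [img_inv A hA] at h4
    have h5 : (0 : ℝ) ≤ finrank k F := Nat.cast_nonneg _
    have h6 := mul_le_mul_of_nonneg_right (le_max_left C1 C2) h5
    have h7 := mul_le_mul_of_nonneg_right (le_max_right C1 C2) h5
    change |Height.logHeight (img A z) - _| ≤ _
    rw [abs_le]
    constructor <;> linarith
  · intro S
    set Lm : Matrix (Fin (n + 2 + p)) (Fin (n + 1)) k := Matrix.of Lam with hLm
    set c : Pl k → ℝ := fun ν => (n + 2) * cB A⁻¹ ν + (∑ i, |Real.log (nv ν (b i))|) + p * cB Lm ν with hc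
    refine ⟨∑ ν ∈ S, c ν, fun F _ _ _ z hz hs hx => ?_⟩
    have hz0 : z ≠ 0 := fun h => hz 0 (congrFun h 0)
    set x := img A z with hxd
    have hx0 : x ≠ 0 := hne F z hz0
    obtain ⟨hAb1, hAb2⟩ := hAb F z
    have hxi : ∀ i, img Lm x i ≠ 0 := hx
    have hloc : ∀ ν : Pl k, ∀ w ∈ above F ν, ((∑ i, (Real.log (sn w z) - Real.log (nv w (z i)))) +
            (Real.log (sn w z) - Real.log (nv w (∑ i, z i)))) - c ν * ldeg ν w ≤
        ∑ i, (Real.log (sn w x) - Real.log (nv w (img Lm x i))) := by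
      intro ν w hw
      have h1 : Real.log (sn w z) ≤ Real.log (sn w x) + ldeg ν w * cB A⁻¹ ν := by
        have := log_sn_img_le A⁻¹ hw x hx0 (by rw [img_inv A hA]; exact hz0)
        rw [img_inv A hA] at this
        exact this
      have h2 : ∀ i : Fin (n + 1), Real.log (nv w (img Lm x (Fin.castAdd p i.castSucc))) =
          Real.log (nv w (z i)) - ldeg ν w * Real.log (nv ν (b i)) := by
        intro i
        have h3 := hAb1 i
        have h4 : nv w (z i) = nv ν (b i) ^ ldeg ν w * nv w (img Lm x (Fin.castAdd p i.castSucc)) := by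
          rw [← h3, nv_mul, Helper52.Vojta.nv_above hw]
          rfl
        rw [h4, Real.log_mul (pow_ne_zero _ (nv_pos _ (hb i)).ne') (nv_pos _ (hxi _)).ne', Real.log_pow]
        ring
      have h3 : img Lm x (Fin.castAdd p (Fin.last (n + 1))) = ∑ i, z i := hAb2
      have h4 : ∀ i : Fin p, -(ldeg ν w * cB Lm ν) ≤
          Real.log (sn w x) - Real.log (nv w (img Lm x (Fin.natAdd (n + 2) i))) := by
        intro i
        have h5 := Real.log_le_log (nv_pos w (hxi _)) (row_le Lm hw x (Fin.natAdd (n + 2) i))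
        rw [Real.log_mul (Real.exp_ne_zero _) (sn_pos w hx0).ne', Real.log_exp] at h5
        linarith
      have hR : ∑ i : Fin (n + 2 + p), (Real.log (sn w x) - Real.log (nv w (img Lm x i))) =
          (∑ i : Fin (n + 1), (Real.log (sn w x) - Real.log (nv w (img Lm x (Fin.castAdd p i.castSucc)))) +
            (Real.log (sn w x) - Real.log (nv w (img Lm x (Fin.castAdd p (Fin.last (n + 1))))))) +
          ∑ i : Fin p, (Real.log (sn w x) - Real.log (nv w (img Lm x (Fin.natAdd (n + 2) i)))) := by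
        rw [Fin.sum_univ_add]
        congr 1
        exact Fin.sum_univ_castSucc
          (fun i : Fin (n + 1 + 1) => Real.log (sn w x) - Real.log (nv w (img Lm x (Fin.castAdd p i))))
      rw [hR, h3]
      simp only [h2]
      have h5 : ∑ i : Fin (n + 1), (Real.log (sn w x) - (Real.log (nv w (z i)) - ldeg ν w * Real.log (nv ν (b i)))) ≥
          ∑ i : Fin (n + 1), ((Real.log (sn w z) - Real.log (nv w (z i))) - ldeg ν w * cB A⁻¹ ν -
            ldeg ν w * |Real.log (nv ν (b i))|) := by
        refine sum_le_sum fun i _ => ?_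
        have h6 : -|Real.log (nv ν (b i))| ≤ Real.log (nv ν (b i)) := neg_abs_le _
        have h7 := mul_le_mul_of_nonneg_left h6 (Nat.cast_nonneg (ldeg ν w) : (0 : ℝ) ≤ ldeg ν w)
        linarith
      have h6 : ∑ i : Fin (n + 1), ((Real.log (sn w z) - Real.log (nv w (z i))) - ldeg ν w * cB A⁻¹ ν -
            ldeg ν w * |Real.log (nv ν (b i))|) = ∑ i : Fin (n + 1), (Real.log (sn w z) - Real.log (nv w (z i))) -
          (n + 1) * (ldeg ν w * cB A⁻¹ ν) - ldeg ν w * ∑ i, |Real.log (nv ν (b i))| := by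
        rw [sum_sub_distrib, sum_sub_distrib, sum_const, card_univ, Fintype.card_fin, nsmul_eq_mul, ← mul_sum]
        push_cast
        ring
      have h7 : ∑ i : Fin p, (Real.log (sn w x) - Real.log (nv w (img Lm x (Fin.natAdd (n + 2) i)))) ≥
          -(p * (ldeg ν w * cB Lm ν)) := by
        calc ∑ i : Fin p, (Real.log (sn w x) - Real.log (nv w (img Lm x (Fin.natAdd (n + 2) i)))) ≥
              ∑ _i : Fin p, -(ldeg ν w * cB Lm ν) := sum_le_sum fun i _ => h4 i
          _ = -(p * (ldeg ν w * cB Lm ν)) := by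
              rw [sum_const, card_univ, Fintype.card_fin, nsmul_eq_mul]
              ring
      rw [h6] at h5
      have h8 : c ν * ldeg ν w = (n + 1) * (ldeg ν w * cB A⁻¹ ν) + ldeg ν w * cB A⁻¹ ν +
          ldeg ν w * ∑ i, |Real.log (nv ν (b i))| + p * (ldeg ν w * cB Lm ν) := by
        rw [hc]
        ring
      rw [h8]
      linarith
    have hsum : ∑ ν ∈ S, ∑ w ∈ above F ν, (((∑ i, (Real.log (sn w z) - Real.log (nv w (z i)))) +
            (Real.log (sn w z) - Real.log (nv w (∑ i, z i)))) - c ν * ldeg ν w) ≤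
        ∑ ν ∈ S, ∑ w ∈ above F ν, ∑ i, (Real.log (sn w x) - Real.log (nv w (img Lm x i))) :=
      sum_le_sum fun ν _ => sum_le_sum fun w hw => hloc ν w hw
    have hc2 : ∑ ν ∈ S, ∑ w ∈ above F ν, c ν * (ldeg ν w : ℝ) = (∑ ν ∈ S, c ν) * finrank k F := by
      rw [sum_mul]
      refine sum_congr rfl fun ν _ => ?_
      rw [← mul_sum, ← Nat.cast_sum, Helper52.Vojta.sum_ldeg]
    simp only [sum_sub_distrib] at hsum
    rw [hc2] at hsum
    simp only [sum_sub_distrib]
    exact hsum

end arith

end Pool.Agent.Helper61.VP
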